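import Mathlib

/-!
For every prime p the blocking set B of PG(2,p^3) has a projective copy disjoint from it.
-/

open Polynomial

namespace Pool.Agent.Results.MP_837a86_co.DisjointCopies

/-- The blocking set `B`: the points `(1, x, x ^ p)` and the points `(0, 1, y)` with
`y ^ (p ^ 2 + p + 1) = 1`, in homogeneous coordinates. -/
def B (p : ℕ) (F : Type) [Field F] : Set (Projectivization F (Fin 3 → F)) :=
  {P | ∃ (v : Fin 3 → F) (hv : v ≠ 0), P = Projectivization.mk F v hv ∧
    ((∃ x : F, v = ![1, x, x ^ p]) ∨ (∃ y : F, y ^ (p ^ 2 + p + 1) = 1 ∧ v = ![0, 1, y]))}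

section

variable {p : ℕ} {F : Type} [Field F]

/-- The linear map `(x₀, x₁, x₂) ↦ (x₂ - c x₁, x₁, κ x₀)`. -/
def gam (c κ : F) (hκ : κ ≠ 0) : (Fin 3 → F) ≃ₗ[F] (Fin 3 → F) where
  toFun := fun v => ![v 2 - c * v 1, v 1, κ * v 0]
  map_add' := by
    intro v w
    ext i
    fin_cases i <;> simp <;> ring
  map_smul' := by
    intro a v
    ext i
    fin_cases i <;> simp <;> ring
  invFun := fun w => ![κ⁻¹ * w 2, w 1, w 0 + c * w 1]
  left_inv := by
    intro v
    ext i
    fin_cases i <;> simp [hκ]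
  right_inv := by
    intro v
    ext i
    fin_cases i <;> simp [hκ]

lemma disjoint_of (hcard : ∀ x : F, x ≠ 0 → x ^ (p ^ 3 - 1) = 1) (hp : 2 ≤ p) (c κ : F)
    (hκ : κ ≠ 0) (hc : c ^ (p ^ 2 + p + 1) ≠ 1)
    (h : ∀ x : F, x ≠ 0 → κ * (x ^ p - c * x) ^ (p - 1) ≠ x ^ p) :
    Disjoint (B p F) (Projectivization.map (gam c κ hκ).toLinearMap
      (gam c κ hκ).injective '' (B p F)) := by
  rw [Set.disjoint_left]
  rintro P ⟨v, hv, rfl, hvB⟩ ⟨Q, ⟨v', hv', rfl, hv'B⟩, hPQ⟩
  rw [Projectivization.map_mk, Projectivization.mk_eq_mk_iff'] at hPQ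
  obtain ⟨t, ht⟩ := hPQ
  have ht0 : t ≠ 0 := by
    intro h0
    rw [h0, zero_smul] at ht
    exact ((gam c κ hκ).map_ne_zero_iff.mpr hv') ht.symm
  have e0 := congrFun ht 0
  have e1 := congrFun ht 1
  have e2 := congrFun ht 2
  simp only [gam, Pi.smul_apply, smul_eq_mul, LinearMap.coe_mk, AddHom.coe_mk, Matrix.cons_val_zero, Matrix.cons_val_one,
    Matrix.cons_val] at e0 e1 e2
  rcases hv'B with ⟨x, rfl⟩ | ⟨y, hy, rfl⟩
  · rcases hvB with ⟨a, rfl⟩ | ⟨y', hy', rfl⟩
    · simp at e0 e1 e2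
      have hx : x ≠ 0 := by
        intro hx
        rw [hx] at e0
        rw [zero_pow (by omega)] at e0
        simp at e0
        exact ht0 e0
      apply h x hx
      rw [← e0, ← e2, ← e1, mul_pow]
      have : t ^ p = t * t ^ (p - 1) := by
        rw [← pow_succ']
        congr 1
        omega
      rw [this]
      ring
    · simp at e0 e1 e2
      rw [← e1] at e0
      apply hc
      have h1 : c = t ^ (p - 1) := by
        have h2 : t * (t ^ (p - 1) - c) = 0 := by
          have : t ^ p = t * t ^ (p - 1) := by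
            rw [← pow_succ']
            congr 1
            omega
          rw [this] at e0
          linear_combination -e0
        have h3 := (mul_eq_zero.mp h2).resolve_left ht0
        linear_combination -h3
      rw [h1, ← pow_mul]
      have : (p - 1) * (p ^ 2 + p + 1) = p ^ 3 - 1 := by
        obtain ⟨q, rfl⟩ : ∃ q, p = q + 1 := ⟨p - 1, by omega⟩
        simp only [Nat.add_sub_cancel]
        have : (q + 1) ^ 3 = q * ((q + 1) ^ 2 + (q + 1) + 1) + 1 := by ring
        omega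
      rw [this]
      exact hcard t ht0
  · rcases hvB with ⟨a, rfl⟩ | ⟨y', hy', rfl⟩
    · simp at e0 e1 e2
      rcases e2 with h2 | h2
      · exact ht0 h2
      · rw [h2.1] at e1
        simp at e1
    · simp at e0 e1 e2
      rcases e2 with h2 | h2
      · exact ht0 h2
      · rw [h2] at hy'
        simp at hy'

/-- If `x ↦ x ^ p / (x ^ p - c x) ^ (p - 1)` is not injective, there is a good `κ`. -/
lemma exists_kappa [Finite F] (c : F) (hc : ∀ x : F, x ≠ 0 → x ^ p - c * x ≠ 0)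
    (x x' : F) (hx : x ≠ 0) (hx' : x' ≠ 0) (hne : x ≠ x')
    (heq : x ^ p * (x' ^ p - c * x') ^ (p - 1) = x' ^ p * (x ^ p - c * x) ^ (p - 1)) :
    ∃ κ : F, κ ≠ 0 ∧ ∀ x : F, x ≠ 0 → κ * (x ^ p - c * x) ^ (p - 1) ≠ x ^ p := by
  let ψ : {x : F // x ≠ 0} → {x : F // x ≠ 0} := fun x =>
    ⟨x.1 ^ p * ((x.1 ^ p - c * x.1) ^ (p - 1))⁻¹, mul_ne_zero (pow_ne_zero _ x.2)
      (inv_ne_zero (pow_ne_zero _ (hc x.1 x.2)))⟩
  have h1 : ¬ Function.Injective ψ := by
    intro hinj
    apply hne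
    have : ψ ⟨x, hx⟩ = ψ ⟨x', hx'⟩ := by
      apply Subtype.ext
      simp only [ψ]
      have n1 := pow_ne_zero (p - 1) (hc x hx)
      have n2 := pow_ne_zero (p - 1) (hc x' hx')
      rw [← div_eq_mul_inv, ← div_eq_mul_inv, div_eq_div_iff n1 n2]
      exact heq
    exact congrArg Subtype.val (hinj this)
  rw [Finite.injective_iff_surjective] at h1
  unfold Function.Surjective at h1
  push Not at h1
  obtain ⟨κ, hκ⟩ := h1
  refine ⟨κ.1, κ.2, fun x hx h => hκ ⟨x, hx⟩ ?_⟩
  apply Subtype.ext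
  simp only [ψ]
  rw [← div_eq_mul_inv, div_eq_iff (pow_ne_zero _ (hc x hx)), h]

/-- The main algebraic step: a good `c` from an element `u` with
`N(u ^ (p-1) - u) ≠ N(1 - u)`. -/
lemma from_u [Finite F] [CharP F p] [Fact p.Prime] (hq : ∀ x : F, x ^ p ^ 3 = x) (u v : F)
    (hu : u ≠ 0) (huv : u ^ p = u * v)
    (hN : (v - u) ^ (p ^ 2 + p + 1) ≠ (1 - u) ^ (p ^ 2 + p + 1)) :
    ∃ c κ : F, κ ≠ 0 ∧ c ^ (p ^ 2 + p + 1) ≠ 1 ∧
      ∀ x : F, x ≠ 0 → κ * (x ^ p - c * x) ^ (p - 1) ≠ x ^ p := by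
  have hp := (Fact.out : p.Prime).two_le
  have hfr : ∀ x : F, (x ^ (p ^ 2 + p + 1)) ^ p = x ^ (p ^ 2 + p + 1) := by
    intro x
    have e1 : (x ^ (p ^ 2 + p + 1)) ^ p = x ^ p ^ 3 * (x ^ (p ^ 2) * x ^ p) := by
      rw [← pow_mul, ← pow_add, ← pow_add]
      congr 1
      ring
    rw [e1, hq]
    ring
  have hv : v ≠ 0 := by
    intro h
    rw [h, mul_zero] at huv
    exact hu (pow_eq_zero_iff (by omega) |>.mp huv)
  have hu1 : 1 - u ≠ 0 := by
    intro h
    have hu' : u = 1 := by linear_combination -h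
    apply hN
    rw [hu', one_pow, one_mul] at huv
    rw [← huv, hu']
  have hNv : v ^ (p ^ 2 + p + 1) = 1 := by
    have h1 : (u * v) ^ (p ^ 2 + p + 1) = u ^ (p ^ 2 + p + 1) := by
      rw [← huv, ← pow_mul, mul_comm, pow_mul, hfr]
    rw [mul_pow] at h1
    exact mul_left_cancel₀ (pow_ne_zero _ hu) (by rw [h1, mul_one])
  set c : F := (v - u) ^ p / (v * (1 - u)) with hcdef
  have hNc : c ^ (p ^ 2 + p + 1) ≠ 1 := by
    rw [hcdef, div_pow, mul_pow, hNv, one_mul]
    intro h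
    rw [div_eq_one_iff_eq (pow_ne_zero _ hu1), ← pow_mul, mul_comm p, pow_mul, hfr] at h
    exact hN h
  have hc : ∀ x : F, x ≠ 0 → x ^ p - c * x ≠ 0 := by
    intro x hx h
    apply hNc
    have h1 : (c * x) ^ (p ^ 2 + p + 1) = x ^ (p ^ 2 + p + 1) := by
      rw [← sub_eq_zero.mp h, ← pow_mul, mul_comm, pow_mul, hfr]
    rw [mul_pow] at h1
    exact mul_right_cancel₀ (pow_ne_zero _ hx) (by rw [h1, one_mul])
  have hvne : v ≠ 1 := by
    intro h
    apply hN
    rw [h]
  have hcol : v ^ p - c * v = v * u * (1 - c) := by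
    have h1 : (v - u) ^ p = v ^ p - u ^ p := sub_pow_char v u
    have h2 : c * (v * (1 - u)) = v ^ p - u * v := by
      rw [hcdef, div_mul_cancel₀ _ (mul_ne_zero hv hu1), h1, huv]
    linear_combination -h2
  obtain ⟨κ, hκ, hκ'⟩ := exists_kappa (p := p) c hc v 1 hv one_ne_zero hvne (by
    have h1 : (v ^ p - c * v) ^ (p - 1) = v ^ (p - 1) * v * (1 - c) ^ (p - 1) := by
      rw [hcol, mul_pow, mul_pow]
      have h2 : u ^ (p - 1) = v := by
        have : u * u ^ (p - 1) = u * v := by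
          rw [← huv, ← pow_succ']
          congr 1
          omega
        exact mul_left_cancel₀ hu this
      rw [h2]
    rw [h1, one_pow, mul_one, one_mul]
    have : v ^ p = v ^ (p - 1) * v := by
      rw [← pow_succ]
      congr 1
      omega
    rw [this])
  exact ⟨c, κ, hκ, hNc, hκ'⟩

/-- The computation of the difference of norms. -/
lemma norm_diff [CharP F p] [Fact p.Prime] (hq : ∀ x : F, x ^ p ^ 3 = x) (w : F) (hw : w ≠ 0)
    (l : F) (hl : l ^ p = l) :
    (w ^ p / w - l * w) ^ (p ^ 2 + p + 1) - (1 - l * w) ^ (p ^ 2 + p + 1) =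
      l * (-(w ^ 2 / w ^ p + (w ^ p) ^ 2 / w ^ p ^ 2 + (w ^ p ^ 2) ^ 2 / w
        - (w + w ^ p + w ^ p ^ 2)) + l * (w * w ^ p * (w / w ^ p ^ 2) +
        w * w ^ p ^ 2 * (w ^ p ^ 2 / w ^ p) + w ^ p * w ^ p ^ 2 * (w ^ p / w) - w * w ^ p
          - w * w ^ p ^ 2 - w ^ p * w ^ p ^ 2)) := by
  have hl2 : l ^ p ^ 2 = l := by rw [pow_two, pow_mul, hl, hl]
  have hw2 : (w ^ p ^ 2) ^ p = w := by
    rw [← pow_mul]
    conv_rhs => rw [← hq w]
    congr 1
  have hw1 : (w ^ p) ^ p = w ^ p ^ 2 := by rw [← pow_mul, pow_two]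
  have e1 : ∀ x : F, x ^ (p ^ 2 + p + 1) = x ^ p ^ 2 * x ^ p * x := by
    intro x
    rw [pow_add, pow_add, pow_one]
  have e2 : (w ^ p / w - l * w) ^ p = w ^ p ^ 2 / w ^ p - l * w ^ p := by
    rw [sub_pow_char, div_pow, mul_pow, hl, hw1]
  have e3 : (w ^ p / w - l * w) ^ p ^ 2 = w / w ^ p ^ 2 - l * w ^ p ^ 2 := by
    rw [pow_two, pow_mul, e2, sub_pow_char, div_pow, mul_pow, hl, hw1, hw2, ← pow_two]
  have e4 : (1 - l * w) ^ p = 1 - l * w ^ p := by
    rw [sub_pow_char, one_pow, mul_pow, hl]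
  have e5 : (1 - l * w) ^ p ^ 2 = 1 - l * w ^ p ^ 2 := by
    rw [pow_two, pow_mul, e4, sub_pow_char, one_pow, mul_pow, hl, hw1, ← pow_two]
  rw [e1, e1, e2, e3, e4, e5]
  have n1 : w ^ p ≠ 0 := pow_ne_zero _ hw
  have n2 : w ^ p ^ 2 ≠ 0 := pow_ne_zero _ hw
  generalize w ^ p = b at *
  generalize w ^ p ^ 2 = d at *
  field_simp
  ring

lemma poly_ne (a b c d e f : ℕ) (hb : b < a) (hc : c < a) (hd : d < a) (he : e < a)
    (hf : f < a) (s t : F) (hs : s ≠ 0) :
    (C s * X ^ a + (X ^ b + X ^ c + C t * X ^ d - X ^ e - X ^ f) : F[X]) ≠ 0 := by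
  intro h
  have h1 := congrArg (fun q => Polynomial.coeff q a) h
  simp only [coeff_add, coeff_sub, coeff_C_mul, coeff_X_pow, coeff_zero, hb.ne', hc.ne', hd.ne',
    he.ne', hf.ne', if_false, if_true] at h1
  simp at h1
  exact hs h1

lemma poly_zero [Fintype F] (a b c d e f : ℕ) (hb : b < a) (hc : c < a) (hd : d < a)
    (he : e < a) (hf : f < a) (ha : a < Fintype.card F) (s t : F) (hs : s ≠ 0)
    (h : ∀ x : F, s * x ^ a + (x ^ b + x ^ c + t * x ^ d - x ^ e - x ^ f) = 0) : False := by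
  apply poly_ne a b c d e f hb hc hd he hf s t hs
  apply Polynomial.eq_zero_of_natDegree_lt_card_of_eval_eq_zero _ Function.injective_id
  · intro x
    simp only [id, eval_add, eval_sub, eval_mul, eval_C, eval_pow, eval_X]
    exact h x
  · refine lt_of_le_of_lt ?_ ha
    have h1 : ∀ i, i < a → (X ^ i : F[X]).natDegree ≤ a := fun i hi => by
      rw [natDegree_X_pow]; exact hi.le
    refine natDegree_add_le_of_degree_le (natDegree_C_mul_X_pow_le _ _) ?_
    have h2 : (X ^ b + X ^ c + C t * X ^ d : F[X]).natDegree ≤ a :=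
      natDegree_add_le_of_degree_le (natDegree_add_le_of_degree_le (h1 b hb) (h1 c hc))
        ((natDegree_C_mul_X_pow_le _ _).trans hd.le)
    have h3 : (X ^ b + X ^ c + C t * X ^ d - X ^ e : F[X]).natDegree ≤ a :=
      (natDegree_sub_le _ _).trans (max_le h2 (h1 e he))
    exact (natDegree_sub_le _ _).trans (max_le h3 (h1 f hf))

lemma exists_w [Fintype F] (hq : Fintype.card F = p ^ 3) (hp : 3 ≤ p) :
    ∃ w : F, w ≠ 0 ∧ w ^ 2 / w ^ p + (w ^ p) ^ 2 / w ^ p ^ 2 + (w ^ p ^ 2) ^ 2 / w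
        - (w + w ^ p + w ^ p ^ 2) ≠ 0 := by
  by_contra hcon
  push Not at hcon
  have key : ∀ w : F, w ^ 3 * w ^ p ^ 2 + w * (w ^ p) ^ 3 + w ^ p * (w ^ p ^ 2) ^ 3 -
      w * w ^ p * w ^ p ^ 2 * (w + w ^ p + w ^ p ^ 2) = 0 := by
    intro w
    by_cases hw : w = 0
    · rw [hw, zero_pow (by omega : p ≠ 0)]
      simp
    · have h1 := hcon w hw
      have n1 : w ^ p ≠ 0 := pow_ne_zero _ hw
      have n2 : w ^ p ^ 2 ≠ 0 := pow_ne_zero _ hw
      generalize w ^ p = b at *
      generalize w ^ p ^ 2 = d at *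
      field_simp at h1
      linear_combination h1
  rcases Nat.lt_or_ge 3 p with h3 | h3
  · -- p > 3
    refine poly_zero (F := F) (p + 3 * p ^ 2) (3 + p ^ 2) (1 + 3 * p) (2 + p + p ^ 2)
      (1 + 2 * p + p ^ 2) (1 + p + 2 * p ^ 2) (by nlinarith) (by nlinarith) (by nlinarith)
      (by nlinarith) (by nlinarith) ?_ 1 (-1) one_ne_zero ?_
    · rw [hq]
      have : p ^ 3 = p * p ^ 2 := by ring
      rw [this]
      nlinarith
    · intro x
      have h1 := key x
      have e1 : x ^ (p + 3 * p ^ 2) = x ^ p * (x ^ p ^ 2) ^ 3 := by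
        rw [pow_add, ← pow_mul, mul_comm 3]
      have e2 : x ^ (3 + p ^ 2) = x ^ 3 * x ^ p ^ 2 := by rw [pow_add]
      have e3 : x ^ (1 + 3 * p) = x * (x ^ p) ^ 3 := by
        rw [pow_add, ← pow_mul, mul_comm 3, pow_one]
      have e4 : x ^ (2 + p + p ^ 2) = x ^ 2 * x ^ p * x ^ p ^ 2 := by rw [pow_add, pow_add]
      have e5 : x ^ (1 + 2 * p + p ^ 2) = x * (x ^ p) ^ 2 * x ^ p ^ 2 := by
        rw [pow_add, pow_add, ← pow_mul, mul_comm 2, pow_one]
      have e6 : x ^ (1 + p + 2 * p ^ 2) = x * x ^ p * (x ^ p ^ 2) ^ 2 := by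
        rw [pow_add, pow_add, ← pow_mul, mul_comm 2, pow_one]
      rw [e1, e2, e3, e4, e5, e6]
      linear_combination h1
  · have hp3 : p = 3 := by omega
    subst hp3
    refine poly_zero (F := F) 22 12 10 4 14 16 (by norm_num) (by norm_num) (by norm_num)
      (by norm_num) (by norm_num) ?_ (-1) 1 (by simp) ?_
    · rw [hq]; norm_num
    · intro x
      have h1 := key x
      have h2 : x ^ 27 = x := by
        have := FiniteField.pow_card x
        rw [hq] at this
        norm_num at this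
        exact this
      linear_combination h1 - x ^ 3 * h2

end

theorem main (p : ℕ) (hp : p.Prime) (F : Type) [Field F] [Fintype F]
    (hcard : Fintype.card F = p ^ 3) :
    ∃ c κ : F, κ ≠ 0 ∧ c ^ (p ^ 2 + p + 1) ≠ 1 ∧
      ∀ x : F, x ≠ 0 → κ * (x ^ p - c * x) ^ (p - 1) ≠ x ^ p := by
  have hfact : Fact p.Prime := ⟨hp⟩
  have hchar : CharP F p := charP_of_card_eq_prime_pow hcard
  have hq : ∀ x : F, x ^ p ^ 3 = x := by
    intro x
    have := FiniteField.pow_card x
    rwa [hcard] at this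
  rcases Nat.lt_or_ge 2 p with h2 | h2
  · obtain ⟨w, hw, hA⟩ := exists_w (p := p) (F := F) hcard (by omega)
    have hcl : ∀ l : F, l ^ p = l → l ≠ 0 → ∃ v, (l * w) ^ p = (l * w) * v ∧
        v = w ^ p / w := by
      intro l hl hl0
      refine ⟨w ^ p / w, ?_, rfl⟩
      rw [mul_pow, hl]
      field_simp
    have h20 : (2 : F) ≠ 0 := by
      intro h
      have h1 : ((2 : ℕ) : F) = 0 := by exact_mod_cast h
      rw [CharP.cast_eq_zero_iff F p 2] at h1
      exact absurd (Nat.le_of_dvd (by norm_num) h1) (by omega)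
    by_cases h1 : (w ^ p / w - 1 * w) ^ (p ^ 2 + p + 1) = (1 - 1 * w) ^ (p ^ 2 + p + 1)
    · by_cases h1' : (w ^ p / w - (-1) * w) ^ (p ^ 2 + p + 1) =
          (1 - (-1) * w) ^ (p ^ 2 + p + 1)
      · exfalso
        have hneg : (-1 : F) ^ p = -1 := by
          rcases hp.eq_two_or_odd' with h | h
          · omega
          · exact h.neg_one_pow
        have d1 := norm_diff (p := p) hq w hw 1 (one_pow _)
        have d2 := norm_diff (p := p) hq w hw (-1) hneg
        rw [h1, sub_self] at d1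
        rw [h1', sub_self] at d2
        apply hA
        apply mul_left_cancel₀ h20
        rw [mul_zero]
        linear_combination d1 - d2
      · have hneg : (-1 : F) ^ p = -1 := by
          rcases hp.eq_two_or_odd' with h | h
          · omega
          · exact h.neg_one_pow
        obtain ⟨v, hv1, hv2⟩ := hcl (-1) hneg (by simp)
        exact from_u hq ((-1) * w) v (mul_ne_zero (by simp) hw) hv1 (by rw [hv2]; exact h1')
    · obtain ⟨v, hv1, hv2⟩ := hcl 1 (one_pow _) one_ne_zero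
      exact from_u hq (1 * w) v (mul_ne_zero one_ne_zero hw) hv1 (by rw [hv2]; exact h1)
  · have hp2 : p = 2 := le_antisymm h2 hp.two_le
    subst hp2
    have hcard' : Fintype.card F = 8 := by rw [hcard]; norm_num
    classical
    obtain ⟨κ, hκ⟩ : ∃ κ : F, κ ∉ ({0, 1} : Finset F) := by
      by_contra hcon
      push Not at hcon
      have h1 : Fintype.card F ≤ 2 := by
        rw [← Finset.card_univ]
        exact (Finset.card_le_card (fun x _ => hcon x)).trans Finset.card_le_two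
      omega
    simp only [Finset.mem_insert, Finset.mem_singleton, not_or] at hκ
    refine ⟨0, κ, hκ.1, by simp, fun x hx h => hκ.2 ?_⟩
    have h1 : κ * x ^ 2 = 1 * x ^ 2 := by
      have e : (x ^ 2 - 0 * x) ^ (2 - 1) = x ^ 2 := by norm_num
      rw [e] at h
      rw [h, one_mul]
    exact mul_right_cancel₀ (pow_ne_zero 2 hx) h1

/-- **Disjoint projective copies.** For every prime `p` and every field `F` with `p ^ 3` elements
there is an invertible linear map of `F ^ 3` whose induced projectivity maps `B` to a set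
disjoint from `B`. -/
theorem result (p : ℕ) (hp : p.Prime) (F : Type) [Field F] (hcard : Nat.card F = p ^ 3) :
    ∃ f : (Fin 3 → F) ≃ₗ[F] (Fin 3 → F),
      Disjoint (B p F) (Projectivization.map f.toLinearMap f.injective '' (B p F)) := by
  have hfin : Finite F := Nat.finite_of_card_ne_zero (by
    rw [hcard]; exact pow_ne_zero _ hp.ne_zero)
  have := Fintype.ofFinite F
  rw [Nat.card_eq_fintype_card] at hcard
  obtain ⟨c, κ, hκ, hc, h⟩ := main p hp F hcard
  refine ⟨gam c κ hκ, disjoint_of ?_ hp.two_le c κ hκ hc h⟩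
  intro x hx
  rw [← hcard]
  exact FiniteField.pow_card_sub_one_eq_one x hx

end Pool.Agent.Results.MP_837a86_co.DisjointCopies
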